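import Pool.Agent.helper90.ZD.SpecB

/-! # Project zd, module BPH -/

set_option autoImplicit false

open Complex MeasureTheory

namespace Pool.Agent.ZD

open Pool.Agent.helper84.DM Pool.Agent.helper78.ED Pool.Agent.DH

theorem BPH : BPH_stmt := by
  refine ⟨fun y => ⟨?_, ?_⟩, fun y h1 h2 => ?_, fun y h => ?_, fun y h => ?_⟩
  · exact mul_nonneg (Real.smoothTransition.nonneg _) (Real.smoothTransition.nonneg _)
  · exact mul_le_one₀ (Real.smoothTransition.le_one _) (Real.smoothTransition.nonneg _)
      (Real.smoothTransition.le_one _)
  · unfold Phi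
    rw [Real.smoothTransition.one_of_one_le (by linarith),
      Real.smoothTransition.one_of_one_le (by linarith), one_mul]
  · unfold Phi
    rw [Real.smoothTransition.zero_of_nonpos (by linarith), zero_mul]
  · unfold Phi
    rw [Real.smoothTransition.zero_of_nonpos (x := (64 - y) / 32) (by linarith), mul_zero]

end Pool.Agent.ZD
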