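import Pool.Agent.helper90.ZD.SpecB
import Pool.Agent.helper93.ED.WG

/-! # Project zd, module BR1 -/

set_option autoImplicit false

open Complex MeasureTheory

namespace Pool.Agent.ZD

open Pool.Agent.helper84.DM Pool.Agent.helper78.ED Pool.Agent.DH

theorem BR1_inj : Function.Injective (fun t : ℝ => ((t : ℝ) : ℂ) * I) := by
  intro a b h
  exact Complex.ofReal_injective (mul_right_cancel₀ Complex.I_ne_zero h)

theorem BR1_im (t : ℝ) : (((t : ℝ) : ℂ) * I).im = t := by simp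

theorem BR1_sum (W : Finset ℝ) (F : ℝ → ℝ → ℝ) :
    ∑ ρ ∈ W.image (fun t : ℝ => ((t : ℝ) : ℂ) * I),
      ∑ ρ' ∈ W.image (fun t : ℝ => ((t : ℝ) : ℂ) * I), F ρ.im ρ'.im =
    ∑ t ∈ W, ∑ t' ∈ W, F t t' := by
  rw [Finset.sum_image (fun a _ b _ h => BR1_inj h)]
  refine Finset.sum_congr rfl fun t _ => ?_
  rw [Finset.sum_image (fun a _ b _ h => BR1_inj h)]
  refine Finset.sum_congr rfl fun t' _ => ?_
  rw [BR1_im, BR1_im]

theorem BR1_zero_notMem (L : ℕ) : 0 ∉ IL L := by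
  unfold IL
  simp

/-- first step -/
theorem BR1_first (h1 : BQ1_stmt) (h2 : DUA_stmt) (W : Finset ℝ) (M : ℕ) (hM : 1 ≤ M) :
    Real.exp (-9) * QW W M ≤ ∑ t ∈ W, ∑ t' ∈ W, ‖SS (M : ℝ) 0 (t - t')‖ *
      ‖PL (IL M) (t - t')‖ := by
  have hM' : (1 : ℝ) ≤ M := by exact_mod_cast hM
  have h := h2 (W.image fun t : ℝ => ((t : ℝ) : ℂ) * I) (fun _ => 1) (M : ℝ) (IL M) (IL M)
    (fun _ => by simp) hM' (BR1_zero_notMem M) (BR1_zero_notMem M)
  rw [BR1_sum W (fun a b => ‖SS (M : ℝ) 0 (a - b)‖ * ‖PL (IL M) (a - b)‖)] at h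
  refine le_trans ?_ h
  rw [h1 W M, QQ, Finset.mul_sum]
  refine Finset.sum_le_sum fun x hx => ?_
  have hx' : M < x ∧ x ≤ 8 * M := by
    unfold IL at hx
    exact Finset.mem_Ioc.1 hx
  have h3 := wg_lower (M := (M : ℝ)) (n := x) (k := 3) hM' (by exact_mod_cast hx'.1.le)
    (by
      have : (x : ℝ) ≤ ((8 * M : ℕ) : ℝ) := by exact_mod_cast hx'.2
      push_cast at this
      norm_num
      exact this)
  have h4 : Real.exp (-9) ≤ wg (M : ℝ) x := by
    have e : (-((3 : ℕ) : ℝ) ^ 2) = -9 := by norm_num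
    rw [e] at h3
    exact h3
  exact mul_le_mul_of_nonneg_right h4 (Finset.sum_nonneg fun _ _ => by positivity)

theorem BR1 (h1 : BQ1_stmt) (h2 : DUA_stmt) (h3 : RSQ_stmt) : BR1_stmt := by
  intro ε δ hε hδ
  obtain ⟨C₁, hC₁, hSS⟩ := SS_triv
  obtain ⟨C₂, T₂, hC₂, hR⟩ := h3 (min ε δ) (lt_min hε hδ)
  obtain ⟨T₃, hT₃⟩ : ∃ T₃ : ℝ, ∀ T : ℝ, T₃ ≤ T → Real.log T ≤ T ^ δ := by
    have h := (isLittleO_log_rpow_atTop hδ).bound (c := 1) one_pos
    obtain ⟨T₃, hT⟩ := Filter.eventually_atTop.1 h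
    refine ⟨max T₃ 1, fun T hT' => ?_⟩
    have h4 := hT T ((le_max_left _ _).trans hT')
    have h5 : 0 ≤ T ^ δ := Real.rpow_nonneg (by linarith [le_max_right T₃ 1]) _
    rw [Real.norm_eq_abs, Real.norm_of_nonneg h5, one_mul] at h4
    exact (le_abs_self _).trans h4
  refine ⟨Real.exp 18 * (C₁ ^ 2 + C₂), max (max T₂ T₃) 1, by positivity, ?_⟩
  intro T hT W hW M L hM hL hMT hLT hML
  have hT2 : T₂ ≤ T := ((le_max_left _ _).trans (le_max_left _ _)).trans hT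
  have hT3 : T₃ ≤ T := ((le_max_right _ _).trans (le_max_left _ _)).trans hT
  have hT1 : 1 ≤ T := (le_max_right _ _).trans hT
  have hM' : (1 : ℝ) ≤ M := by exact_mod_cast hM
  have hL' : (1 : ℝ) ≤ L := by exact_mod_cast hL
  set q := QW W M with hq
  have hq0 : 0 ≤ q := by
    rw [hq, QW]
    exact Finset.sum_nonneg fun _ _ => Finset.sum_nonneg fun _ _ => by positivity
  have hQL0 : 0 ≤ QW W L := by
    rw [QW]
    exact Finset.sum_nonneg fun _ _ => Finset.sum_nonneg fun _ _ => by positivity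
  set A := ∑ t ∈ W, ∑ t' ∈ W, ‖SS (M : ℝ) 0 (t - t')‖ ^ 2 with hA
  have hA0 : 0 ≤ A := by
    rw [hA]
    exact Finset.sum_nonneg fun _ _ => Finset.sum_nonneg fun _ _ => by positivity
  -- Cauchy-Schwarz
  have hCS : (∑ t ∈ W, ∑ t' ∈ W, ‖SS (M : ℝ) 0 (t - t')‖ * ‖PL (IL M) (t - t')‖) ^ 2 ≤ A * q := by
    rw [hA, hq, QW, ← Finset.sum_product', ← Finset.sum_product', ← Finset.sum_product']
    exact Finset.sum_mul_sq_le_sq_mul_sq _ _ _
  have hf := BR1_first h1 h2 W M hM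
  rw [← hq] at hf
  have hqA : q ≤ Real.exp 18 * A := by
    have hf2 : (Real.exp (-9) * q) ^ 2 ≤ A * q := by
      refine le_trans ?_ hCS
      exact pow_le_pow_left₀ (by positivity) hf 2
    have he : Real.exp (-9) ^ 2 = Real.exp (-18) := by
      rw [← Real.exp_nat_mul]; norm_num
    rw [mul_pow, he] at hf2
    rcases hq0.eq_or_lt with h0 | h0
    · rw [← h0]; positivity
    · have h5 : Real.exp (-18) * q ≤ A := by
        have : (Real.exp (-18) * q) * q ≤ A * q := by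
          calc (Real.exp (-18) * q) * q = Real.exp (-18) * q ^ 2 := by ring
            _ ≤ A * q := hf2
        exact le_of_mul_le_mul_right this h0
      have h6 : Real.exp 18 * Real.exp (-18) = 1 := by
        rw [← Real.exp_add]; norm_num
      calc q = Real.exp 18 * (Real.exp (-18) * q) := by rw [← mul_assoc, h6, one_mul]
        _ ≤ Real.exp 18 * A := mul_le_mul_of_nonneg_left h5 (Real.exp_pos _).le
  -- the far terms
  set F := ∑ t ∈ W, ∑ t' ∈ W, (if Real.log T ≤ |t - t'| then ‖SS (M : ℝ) 0 (t - t')‖ ^ 2 else 0)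
    with hF
  have hAF : A ≤ (W.card : ℝ) * (C₁ ^ 2 * (M : ℝ) ^ 2) + F := by
    have hterm : ∀ t ∈ W, ∀ t' ∈ W, ‖SS (M : ℝ) 0 (t - t')‖ ^ 2 ≤
        (if t = t' then C₁ ^ 2 * (M : ℝ) ^ 2 else 0) +
        (if Real.log T ≤ |t - t'| then ‖SS (M : ℝ) 0 (t - t')‖ ^ 2 else 0) := by
      intro t ht t' ht'
      by_cases htt : t = t'
      · rw [if_pos htt]
        have h6 : ‖SS (M : ℝ) 0 (t - t')‖ ^ 2 ≤ C₁ ^ 2 * (M : ℝ) ^ 2 := by
          rw [← mul_pow]
          exact pow_le_pow_left₀ (norm_nonneg _) (hSS _ _ _ hM' le_rfl) 2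
        have h7 : (0 : ℝ) ≤ (if Real.log T ≤ |t - t'| then ‖SS (M : ℝ) 0 (t - t')‖ ^ 2 else 0) := by
          split_ifs <;> positivity
        linarith
      · rw [if_neg htt, zero_add, if_pos ((hT₃ T hT3).trans (hW.2 t ht t' ht' htt))]
    rw [hA, hF]
    calc ∑ t ∈ W, ∑ t' ∈ W, ‖SS (M : ℝ) 0 (t - t')‖ ^ 2
        ≤ ∑ t ∈ W, ∑ t' ∈ W, ((if t = t' then C₁ ^ 2 * (M : ℝ) ^ 2 else 0) +
        (if Real.log T ≤ |t - t'| then ‖SS (M : ℝ) 0 (t - t')‖ ^ 2 else 0)) :=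
          Finset.sum_le_sum fun t ht => Finset.sum_le_sum fun t' ht' => hterm t ht t' ht'
      _ = _ := by
          simp only [Finset.sum_add_distrib]
          congr 1
          rw [Finset.sum_congr rfl fun t ht => by rw [Finset.sum_ite_eq, if_pos ht]]
          rw [Finset.sum_const, nsmul_eq_mul]
  have hLF : (L : ℝ) * F ≤ C₂ * T ^ (min ε δ) * M * QW W L := by
    have h := hR T hT2 (W.image fun t : ℝ => ((t : ℝ) : ℂ) * I) (by
      intro ρ hρ ρ' hρ'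
      obtain ⟨t, ht, rfl⟩ := Finset.mem_image.1 hρ
      obtain ⟨t', ht', rfl⟩ := Finset.mem_image.1 hρ'
      rw [BR1_im, BR1_im, abs_le]
      have h8 := hW.1 t ht
      have h9 := hW.1 t' ht'
      constructor <;> linarith) (M : ℝ) L hM'
      (hMT.trans (pow_le_pow_right₀ hT1 (by norm_num))) hL
      (hLT.trans (pow_le_pow_right₀ hT1 (by norm_num)))
      ((Real.rpow_le_rpow_of_exponent_le hT1 (by linarith [min_le_right ε δ])).trans hML)
      (fun _ _ => 0) (fun _ _ _ _ => ⟨le_rfl, zero_le_one⟩)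
    rw [BR1_sum W (fun a b => if Real.log T ≤ |a - b| then ‖SS (M : ℝ) 0 (a - b)‖ ^ 2 else 0),
      ← h1 W L] at h
    exact h
  have hTe : (1 : ℝ) ≤ T ^ ε := Real.one_le_rpow hT1 hε.le
  have hTe2 : T ^ (min ε δ) ≤ T ^ ε := Real.rpow_le_rpow_of_exponent_le hT1 (min_le_left _ _)
  have hX0 : 0 ≤ (L : ℝ) * (W.card : ℝ) * (M : ℝ) ^ 2 := by positivity
  have hY0 : 0 ≤ (M : ℝ) * QW W L := by positivity
  calc (L : ℝ) * q ≤ (L : ℝ) * (Real.exp 18 * ((W.card : ℝ) * (C₁ ^ 2 * (M : ℝ) ^ 2) + F)) := by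
        refine mul_le_mul_of_nonneg_left (hqA.trans ?_) (by positivity)
        exact mul_le_mul_of_nonneg_left hAF (Real.exp_pos _).le
    _ = Real.exp 18 * (C₁ ^ 2 * ((L : ℝ) * (W.card : ℝ) * (M : ℝ) ^ 2) + (L : ℝ) * F) := by ring
    _ ≤ Real.exp 18 * (C₁ ^ 2 * ((L : ℝ) * (W.card : ℝ) * (M : ℝ) ^ 2) +
        C₂ * T ^ ε * (M * QW W L)) := by
        refine mul_le_mul_of_nonneg_left ?_ (Real.exp_pos _).le
        refine add_le_add_right (hLF.trans ?_) _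
        calc C₂ * T ^ (min ε δ) * M * QW W L = C₂ * T ^ (min ε δ) * (M * QW W L) := by ring
          _ ≤ C₂ * T ^ ε * (M * QW W L) := by
            refine mul_le_mul_of_nonneg_right ?_ hY0
            exact mul_le_mul_of_nonneg_left hTe2 hC₂.le
    _ ≤ Real.exp 18 * (C₁ ^ 2 + C₂) * T ^ ε *
        (L * (W.card : ℝ) * (M : ℝ) ^ 2 + M * QW W L) := by
        have h10 : C₁ ^ 2 * ((L : ℝ) * (W.card : ℝ) * (M : ℝ) ^ 2) ≤
            (C₁ ^ 2 + C₂) * T ^ ε * ((L : ℝ) * (W.card : ℝ) * (M : ℝ) ^ 2) := by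
          refine mul_le_mul_of_nonneg_right ?_ hX0
          calc C₁ ^ 2 ≤ C₁ ^ 2 + C₂ := by linarith
            _ ≤ (C₁ ^ 2 + C₂) * T ^ ε := le_mul_of_one_le_right (by positivity) hTe
        have h11 : C₂ * T ^ ε * (M * QW W L) ≤ (C₁ ^ 2 + C₂) * T ^ ε * (M * QW W L) := by
          refine mul_le_mul_of_nonneg_right ?_ hY0
          refine mul_le_mul_of_nonneg_right ?_ (by positivity)
          have : 0 ≤ C₁ ^ 2 := by positivity
          linarith
        calc Real.exp 18 * (C₁ ^ 2 * ((L : ℝ) * (W.card : ℝ) * (M : ℝ) ^ 2) +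
            C₂ * T ^ ε * (M * QW W L)) ≤ Real.exp 18 *
            ((C₁ ^ 2 + C₂) * T ^ ε * ((L : ℝ) * (W.card : ℝ) * (M : ℝ) ^ 2) +
              (C₁ ^ 2 + C₂) * T ^ ε * (M * QW W L)) :=
              mul_le_mul_of_nonneg_left (add_le_add h10 h11) (Real.exp_pos _).le
          _ = _ := by ring

end Pool.Agent.ZD
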