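import Pool.Agent.helper7.ZD.Spec
import Pool.Agent.helper14.ZB.ZE2

/-!
# Theorem ZD (MP_baa4d7_al), row YE1: the class `KY`
-/

set_option autoImplicit false

namespace Pool.Agent.ND.NY

open Pool.Agent.helper58.DC Pool.Agent.DI Pool.Agent.GR Pool.Agent.OB Pool.Agent.DR Pool.Agent.FI Pool.Agent.FI3 Pool.Agent.FI4 Pool.Agent.FI4I Pool.Agent.LE Pool.Agent.L5 Pool.Agent.NAB
open Pool.Agent.ZB (Pm Om KZ EQ BQ lQ MZc BDK)

theorem YE1_kz {G : Type} [Group G] {p e : ℕ} {κ : Pm} {Q : Subgroup G} (h : KY p e κ Q) : KZ p κ Q := by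
  obtain ⟨k1, -, k2, k3, Z, hZ, hc, hcard, r1, r2, r3, -, -⟩ := h
  exact ⟨k1, by omega, k3, Z, hZ, hc, hcard, r1, r2, r3⟩

theorem YE1 (hZE1 : Pool.Agent.ZB.ZE1_stmt) : YE1_stmt := by
  intro p hp κ G _ _ Q
  refine ⟨?_, ?_⟩
  · intro e hQ
    have hKZ := YE1_kz hQ
    obtain ⟨k1, k0, k2, k3, Z, hZ, hc, hcard, r1, r2, r3, r4, z₀, hz₀, ho₀⟩ := hQ
    refine ⟨hKZ, by omega, k2, ?_, ?_, ?_, z₀, hZ hz₀, hc z₀ hz₀, ho₀⟩
    · intro Q₁ hle hcen
      have hZQ₁ : Z ≤ Q₁ := by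
        intro z hz
        have hzc : z ∈ cz Q₁ := by
          change z ∈ Subgroup.centralizer (Q₁ : Set G)
          rw [Subgroup.mem_centralizer_iff]
          intro x hx
          exact (hc z hz x (hle hx)).symm
        exact hcen ⟨hZ hz, hzc⟩
      exact ⟨k1, k0, k2, k3.to_le hle, Z, hZQ₁, fun z hz x hx => hc z hz x (hle hx), (Subgroup.card_le_of_le hle).trans hcard, r1, r2, r3, r4, z₀, hz₀, ho₀⟩
    · intro g
      refine ⟨k1, k0, k2, k3.map _, cjS g Z, Subgroup.map_mono hZ, ?_, ?_, ?_, ?_, ?_, ?_, (MulAut.conj g).toMonoidHom z₀, ⟨z₀, hz₀, rfl⟩, ?_⟩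
      · rintro _ ⟨z, hz, rfl⟩ _ ⟨x, hx, rfl⟩
        rw [← map_mul, ← map_mul, hc z hz x hx]
      · rw [Pool.Agent.ZB.ZE2_cd, Pool.Agent.ZB.ZE2_cd]
        exact hcard
      · rw [Pool.Agent.ZB.ZE2_nc]
        exact r1
      · rw [Pool.Agent.ZB.ZE2_nc]
        exact r2
      · rw [Pool.Agent.ZB.ZE2_nc]
        exact r3
      · rintro _ ⟨z, hz, rfl⟩
        rw [← map_pow, r4 z hz, map_one]
      · rw [← ho₀]
        exact orderOf_injective _ (MulAut.conj g).injective z₀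
    · intro z hz ho
      have h1 := hZE1 p hp κ G Q hKZ
      have hcE : Nat.card (EQ p κ.s Q) = p := by rw [h1.2.1.1, k2, pow_one]
      have ho' : orderOf (z ^ p ^ (e - 1)) = p := by
        rw [orderOf_pow_of_dvd (pow_ne_zero _ hp.ne_zero) (by rw [ho]; exact pow_dvd_pow p (by omega)), ho, Nat.pow_div (by omega) hp.pos]
        have : e - (e - 1) = 1 := by omega
        rw [this, pow_one]
      have hle : Eg p e z ≤ EQ p κ.s Q := by
        unfold Eg
        rw [Subgroup.zpowers_le]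
        refine (h1.1 _).2 ⟨?_, z ^ p ^ (e - 1 - κ.s), Q.pow_mem hz _, ?_⟩
        · have := pow_orderOf_eq_one (z ^ p ^ (e - 1))
          rwa [ho'] at this
        · rw [← pow_mul, ← pow_add]
          congr 2
          omega
      refine Subgroup.eq_of_le_of_card_ge hle ?_
      rw [hcE]
      unfold Eg
      rw [Nat.card_zpowers, ho']
  · intro hK hk hw
    obtain ⟨k1, k2, k3, Z, hZ, hc, hcard, r1, r2, r3⟩ := hK
    have hpZ : IsPGroup p Z := k3.to_le hZ
    have hord : ∀ z ∈ Z, ∃ j, orderOf z = p ^ j := by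
      intro z hz
      obtain ⟨j, hj⟩ := hpZ ⟨z, hz⟩
      have h1 : z ^ p ^ j = 1 := by
        have := congrArg Subtype.val hj
        simpa using this
      obtain ⟨i, -, hi⟩ := (Nat.dvd_prime_pow hp).1 (orderOf_dvd_of_pow_eq_one h1)
      exact ⟨i, hi⟩
    obtain ⟨z₀, hz₀, hmax⟩ := Set.exists_max_image (Z : Set G) orderOf (Set.toFinite _) ⟨1, Z.one_mem⟩
    obtain ⟨e, he⟩ := hord z₀ hz₀
    have hall : ∀ z ∈ Z, z ^ p ^ e = 1 := by
      intro z hz
      obtain ⟨j, hj⟩ := hord z hz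
      have h1 := hmax z hz
      rw [hj, he] at h1
      have h2 : j ≤ e := (Nat.pow_le_pow_iff_right hp.one_lt).1 h1
      apply orderOf_dvd_iff_pow_eq_one.1
      rw [hj]
      exact pow_dvd_pow p h2
    have hlt : κ.s + κ.w < e := by
      by_contra hcon
      push Not at hcon
      have h1 : Om p (κ.s + κ.w) Z ⊆ {1} := by
        rintro y ⟨-, z, hz, hy⟩
        rw [Set.mem_singleton_iff, ← hy]
        obtain ⟨c, hc'⟩ := pow_dvd_pow p hcon
        rw [hc', pow_mul, hall z hz, one_pow]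
      have h2 : (Om p (κ.s + κ.w) Z).ncard ≤ 1 := by
        have := Set.ncard_le_ncard h1 (Set.finite_singleton _)
        rwa [Set.ncard_singleton] at this
      rw [r3, hk, pow_one] at h2
      have := hp.one_lt
      omega
    exact ⟨e, k1, by omega, hk, k3, Z, hZ, hc, hcard, r1, r2, r3, hall, z₀, hz₀, he⟩

end Pool.Agent.ND.NY
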